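import Pool.Agent.Results.MP_1dafdd_ag.AsymptoticRange
import Pool.Agent.Results.MP_1dafdd_ag.EffectiveAllDimensions
import Pool.Agent.R66.BX.HD

set_option autoImplicit false

/-!
# Almost all tuples impose maximal conditions, in every dimension and uniformly in the sizes

Let `r ≥ 2`. For every `ε > 0` there is a `K` such that for all numbers `k ≥ K` of points, all bounds
`M ≥ 1` for the multiplicities and all bounds `D` for the degree: among the tuples
`(d, m 1, …, m k)` with `1 ≤ d ≤ D` and `1 ≤ m i ≤ M` at most the proportion `ε` consists of tuples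
for which `k` general fat points of `ℙ^r` with these multiplicities fail to impose maximal conditions
in degree `d`.

The points are `(1 : P i 0 : … : P i (r - 1))`.
-/

namespace Pool.Agent.Results.MP_1dafdd_ag.AlmostAllTuples

open MvPolynomial

/-- The fat point scheme with multiplicities `m i` at the points `(1 : P i 0 : … : P i (r - 1))`
of `ℙ^r` imposes maximal conditions on the forms of degree `d`. -/
def Maximal {r k : ℕ} (m : Fin k → ℕ) (P : Fin k → Fin r → ℂ) (d : ℕ) : Prop :=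
  (Module.finrank ℂ
    ↥(MvPolynomial.homogeneousSubmodule (Fin (r + 1)) ℂ d ⊓
      Submodule.restrictScalars ℂ
        (⨅ i : Fin k, (Ideal.span (Set.range fun j : Fin r =>
          (X j.succ - C (P i j) * X 0 : MvPolynomial (Fin (r + 1)) ℂ))) ^ (m i))) : ℤ) =
    max 0 ((Nat.choose (d + r) r : ℤ) - ∑ i, (Nat.choose (m i + r - 1) r : ℤ))

/-- For `k` general points of `ℙ^r` the fat point scheme with multiplicities `m i` imposes maximal
conditions in degree `d`. -/
def GeneralMaximal (r k : ℕ) (m : Fin k → ℕ) (d : ℕ) : Prop :=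
  ∃ F : MvPolynomial (Fin k × Fin r) ℂ, F ≠ 0 ∧
    ∀ P : Fin k → Fin r → ℂ,
      MvPolynomial.eval (fun ij : Fin k × Fin r => P ij.1 ij.2) F ≠ 0 → Maximal m P d

/-- The tuples `(d, m 1, …, m k)` with `1 ≤ d ≤ D` and `1 ≤ m i ≤ M`. -/
def box (k M D : ℕ) : Set (ℕ × (Fin k → ℕ)) :=
  {x | 1 ≤ x.1 ∧ x.1 ≤ D ∧ ∀ i, 1 ≤ x.2 i ∧ x.2 i ≤ M}

theorem box_card (k M D : ℕ) : (Set.ncard (box k M D) : ℝ) = D * (M : ℝ) ^ k := by
  classical
  have h : box k M D =
      ↑((Finset.Icc 1 D) ×ˢ Fintype.piFinset (fun _ : Fin k => Finset.Icc 1 M)) := by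
    ext x
    rw [Finset.mem_coe, Finset.mem_product, Finset.mem_Icc, Fintype.mem_piFinset]
    simp only [box, Set.mem_ofPred_eq, Finset.mem_Icc, and_assoc]
  rw [h, Set.ncard_coe_finset, Finset.card_product, Fintype.card_piFinset]
  simp

/-- Emptiness in degree `d` gives emptiness, and maximal conditions, in all smaller degrees. -/
theorem down {r k : ℕ} {m : Fin k → ℕ} {d : ℕ}
    (h : Pool.Agent.Results.MP_1dafdd_ag.AsymptoticRange.EmptyAndMaximal r k m d) (d' : ℕ)
    (hd : d' ≤ d) : GeneralMaximal r k m d' := by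
  obtain ⟨F, hF, hF'⟩ := h
  refine ⟨F, hF, fun P hP => ?_⟩
  obtain ⟨h1, h2⟩ := hF' P hP
  have hbot : ∀ e : ℕ, e ≤ d → (MvPolynomial.homogeneousSubmodule (Fin (r + 1)) ℂ e ⊓
      Submodule.restrictScalars ℂ
        (⨅ i : Fin k, (Ideal.span (Set.range fun j : Fin r =>
          (X j.succ - C (P i j) * X 0 : MvPolynomial (Fin (r + 1)) ℂ))) ^ (m i))) = ⊥ := by
    intro e he
    rw [eq_bot_iff]
    intro G hG
    obtain ⟨g1, g2⟩ := Submodule.mem_inf.1 hG
    rw [Submodule.restrictScalars_mem] at g2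
    have g3 : ∀ i, G ∈ (Ideal.span (Set.range fun j : Fin r =>
          (X j.succ - C (P i j) * X 0 : MvPolynomial (Fin (r + 1)) ℂ))) ^ (m i) := by
      intro i
      exact (Submodule.mem_iInf _).1 g2 i
    have g1' : G.IsHomogeneous e := (mem_homogeneousSubmodule _ _).1 g1
    have hX : ((X 0 : MvPolynomial (Fin (r + 1)) ℂ) ^ (d - e)).IsHomogeneous (d - e) := by
      have := (isHomogeneous_X ℂ (0 : Fin (r + 1))).pow (d - e)
      rwa [one_mul] at this
    have hhom : ((X 0 : MvPolynomial (Fin (r + 1)) ℂ) ^ (d - e) * G).IsHomogeneous d := by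
      have := hX.mul g1'
      rwa [Nat.sub_add_cancel he] at this
    have h0 := h1 _ hhom fun i => Ideal.mul_mem_left _ _ (g3 i)
    rw [Submodule.mem_bot]
    rcases mul_eq_zero.1 h0 with h3 | h3
    · exact absurd h3 (pow_ne_zero _ (X_ne_zero _))
    · exact h3
  have hz : (Nat.choose (d + r) r : ℤ) - ∑ i, (Nat.choose (m i + r - 1) r : ℤ) ≤ 0 := by
    rw [hbot d le_rfl, finrank_bot] at h2
    by_contra hcon
    push Not at hcon
    rw [max_eq_right hcon.le] at h2
    push_cast at h2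
    omega
  have hch : (Nat.choose (d' + r) r : ℤ) ≤ (Nat.choose (d + r) r : ℤ) := by
    exact_mod_cast Nat.choose_le_choose r (by omega)
  unfold Maximal
  rw [hbot d' hd, finrank_bot, max_eq_left (by linarith)]
  rfl

/-- **Main result.** -/
theorem result (r : ℕ) (hr : 2 ≤ r) (ε : ℝ) (hε : 0 < ε) :
    ∃ K : ℕ, ∀ k : ℕ, K ≤ k → ∀ M D : ℕ, 1 ≤ M →
      (Set.ncard {x ∈ box k M D | ¬ GeneralMaximal r k x.2 x.1} : ℝ) ≤
        ε * (Set.ncard (box k M D) : ℝ) := by
  obtain ⟨K, hK⟩ := Pool.Agent.R66.BX.HD.almost_all (r := r) (by omega)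
    (fun k m d => Pool.Agent.Results.MP_1dafdd_ag.AsymptoticRange.EmptyAndMaximal r k m d)
    (fun k m d => GeneralMaximal r k m d)
    (fun δ hδ => by
      obtain ⟨σ, hσ, h⟩ :=
        (Pool.Agent.Results.MP_1dafdd_ag.AsymptoticRange.result r hr).1 δ hδ
      refine ⟨σ, hσ, fun k m d hd hm => ⟨(h k m d hd hm).1, fun h1 => ?_⟩⟩
      obtain ⟨F, hF, hF'⟩ := (h k m d hd hm).2 h1
      exact ⟨F, hF, fun P hP => (hF' P hP).2⟩)
    (fun k m d h d' hd => down h d' hd)
    (fun M => by
      refine ⟨((r * (M + 1)) ^ (r * (r + 1) / 2) + r).choose r, fun k hk m hm d => ?_⟩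
      obtain ⟨F, hF, hF'⟩ :=
        (Pool.Agent.Results.MP_1dafdd_ag.EffectiveAllDimensions.result r hr (M + 1)
          (by omega)).1 k m (fun i => (hm i).2.trans (Nat.le_succ M))
      refine ⟨F, hF, fun P hP => hF' P hP d (Or.inr (hk.trans ?_))⟩
      calc k = ∑ _i : Fin k, 1 := by simp
        _ ≤ ∑ i, (m i + r - 1).choose r := Finset.sum_le_sum fun i _ => by
            have := (hm i).1
            exact Nat.choose_pos (by omega))
    ε hε
  refine ⟨K, fun k hk M D hM => ?_⟩
  have h := hK k hk M D hM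
  rw [box_card]
  exact h

end Pool.Agent.Results.MP_1dafdd_ag.AlmostAllTuples
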