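import Pool.Agent.R332.TW.Main
import Pool.Agent.R873.SB.PGen
import Pool.Agent.R873.SB.PNum

/-!
# General fat points with non-uniform multiplicities, in all degrees

Let `r ≥ 2`. The weights `w i > 0` of `k` points of `ℙ^r` are obtained from one weight `1` by
replacing, several times, a weight `w` by `s` times the weight `w / s ^ (1 / r)`; here `s ≥ 3 ^ r` is
arbitrary, or `s = t ^ r`, `t ≥ 2`. The result `SubdivisionWeights` says that there are no forms of
degree `e < ∑ (w i) ^ (r - 1) m i`. Here: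

* in every degree `d ≥ e` the conditions imposed by the points fail to be independent by at most
  `∑ binom (m i + r - 1) r - binom (e + r) r`;
* for the multiplicities `m i = ⌊N w i⌋` the dimension of the space of the forms is the expected one
  up to an error `C N ^ (r - 1)` in ALL degrees, `C` independent of `N` and of the degree.
-/

set_option autoImplicit false

namespace Pool.Agent.Results.MP_1dafdd_ag.EveryDegreeSubdivision

open MvPolynomial
open scoped LinearAlgebra.Projectivization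
open Pool.Agent.H350R3.MG

/-- `V_d(Γ)`: the forms of degree `d` vanishing to order at least `m i` at the `i`-th point. -/
noncomputable def forms {r k : ℕ} (d : ℕ) (m : Fin k → ℕ) (P : Fin k → ℙ ℂ (Fin (r + 1) → ℂ)) :
    Submodule ℂ (MvPolynomial (Fin (r + 1)) ℂ) :=
  homogeneousSubmodule (Fin (r + 1)) ℂ d ⊓
    Submodule.restrictScalars ℂ (⨅ i, primeIdeal (P i) ^ m i : Ideal (MvPolynomial (Fin (r + 1)) ℂ))

/-- The naive count `binom (d + r) r - ∑ binom (m i + r - 1) r`. -/
def naive (r d : ℕ) {k : ℕ} (m : Fin k → ℕ) : ℤ :=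
  ((d + r).choose r : ℤ) - ∑ i, ((m i + r - 1).choose r : ℤ)

/-- The weights: the smallest class of multisets of real numbers which contains `{1}` and which is
closed under the replacement of a weight `w` by `s` times the weight `w / s ^ (1 / r)`, where
`s ≥ 3 ^ r`, or `s = t ^ r` with `t ≥ 2`. -/
inductive Weights (r : ℕ) : Multiset ℝ → Prop
  | one : Weights r {1}
  | split (w : ℝ) (M : Multiset ℝ) (s : ℕ) (hs : 3 ^ r ≤ s ∨ ∃ t, 2 ≤ t ∧ s = t ^ r)
      (h : Weights r (w ::ₘ M)) :
      Weights r (Multiset.replicate s (w / (s : ℝ) ^ ((1 : ℝ) / r)) + M)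

lemma Weights.tw {r : ℕ} {W : Multiset ℝ} (h : Weights r W) : R332.TW.Weights r W := by
  induction h with
  | one => exact R332.TW.Weights.one
  | split w M s hs h ih => exact R332.TW.Weights.split w M s hs ih

lemma forms_eq {r k d : ℕ} (m : Fin k → ℕ) (v : Fin k → Fin (r + 1) → ℂ) (hv : ∀ i, v i ≠ 0) :
    forms d m (fun i => Projectivization.mk ℂ (v i) (hv i)) =
      Pool.Agent.H938R2.forms (r + 1) d m v := by
  unfold forms
  ext F
  rw [Submodule.mem_inf, Submodule.restrictScalars_mem, Submodule.mem_iInf,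
    Pool.Agent.H938R2.mem_forms, mem_homogeneousSubmodule]
  have key : F.IsHomogeneous d → ∀ i,
      (F ∈ primeIdeal (Projectivization.mk ℂ (v i) (hv i)) ^ m i ↔
        Pool.Agent.H938R2.VanishesToOrder (m i) (v i) F) := by
    intro hF i
    rw [primeIdeal_mk]
    exact Pool.Agent.TH176.FB.mem_pow_iff_vanishes (hv i) ((mem_homogeneousSubmodule _ _).2 hF)
  constructor
  · rintro ⟨h1, h2⟩
    exact ⟨h1, fun i => (key h1 i).1 (h2 i)⟩
  · rintro ⟨h1, h2⟩
    exact ⟨h1, fun i => (key h1 i).2 (h2 i)⟩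

/-- from the class `Emp` to general points -/
lemma of_emp {n k d : ℕ} {m : Fin k → ℕ}
    (h : Pool.Agent.Y55.Col.Emp (n + 1) (d + 1) ((Finset.univ : Finset (Fin k)).val.map m)) :
    Generally (fun P : Fin k → ℙ ℂ (Fin (n + 1 + 1) → ℂ) => forms d m P = ⊥) := by
  obtain ⟨D, hD, h⟩ := (Pool.Agent.Y55.Col.general_of_emp h).and
    (Pool.Agent.H938R2.forGeneral_ne_zero (by omega))
  refine generally_of_poly D hD fun v hv hp => ?_
  obtain ⟨h1, h2⟩ := h v hp
  rw [forms_eq _ v hv, h1]

/-- the multiset of the pairs of a weight and a multiplicity -/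
lemma pairs {k : ℕ} (w : Fin k → ℝ) (m : Fin k → ℕ) :
    ((Finset.univ : Finset (Fin k)).val.map fun i => (w i, m i)).map Prod.fst =
      (Finset.univ : Finset (Fin k)).val.map w ∧
    ((Finset.univ : Finset (Fin k)).val.map fun i => (w i, m i)).map Prod.snd =
      (Finset.univ : Finset (Fin k)).val.map m := by
  constructor <;> rw [Multiset.map_map] <;> rfl

/-- no forms of degree less than the weighted sum of the multiplicities -/
lemma empty {r k : ℕ} (hr : 2 ≤ r) {w : Fin k → ℝ}
    (hw : Weights r ((Finset.univ : Finset (Fin k)).val.map w)) (m : Fin k → ℕ) (e : ℕ)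
    (he : (e : ℝ) < ∑ i, w i ^ (r - 1) * m i) :
    Generally (fun P : Fin k → ℙ ℂ (Fin (r + 1) → ℂ) => R873.SB.pf e m P = ⊥) := by
  obtain ⟨E, rfl⟩ : ∃ E, r = E + 1 := ⟨r - 1, by omega⟩
  have hE : 1 ≤ E := by omega
  obtain ⟨p1, p2⟩ := pairs w m
  have h1 := R332.TW.emp_weights hE hw.tw _ p1 e (by
    rw [Multiset.map_map]
    exact he)
  rw [p2] at h1
  exact of_emp h1

lemma pow_sub_le (a c : ℝ) (ha : 0 ≤ a) (hac : a ≤ c) (r : ℕ) :
    c ^ r - a ^ r ≤ r * c ^ (r - 1) * (c - a) := by
  have hc : 0 ≤ c := ha.trans hac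
  induction r with
  | zero => simp
  | succ r ih =>
    have h1 : c ^ (r + 1) - a ^ (r + 1) = c ^ r * (c - a) + a * (c ^ r - a ^ r) := by ring
    have h2 : a * (c ^ r - a ^ r) ≤ c * (r * c ^ (r - 1) * (c - a)) := by
      have h3 : 0 ≤ c ^ r - a ^ r := sub_nonneg.2 (pow_le_pow_left₀ ha hac r)
      exact (mul_le_mul_of_nonneg_right hac h3).trans (mul_le_mul_of_nonneg_left ih hc)
    rw [h1, Nat.add_sub_cancel]
    rcases Nat.eq_zero_or_pos r with rfl | hr
    · simp
    obtain ⟨l, rfl⟩ : ∃ l, r = l + 1 := ⟨r - 1, by omega⟩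
    rw [Nat.add_sub_cancel] at h2
    push_cast at h2 ⊢
    have h4 : c ^ (l + 1) * (c - a) + c * (((l : ℝ) + 1) * c ^ l * (c - a)) =
        ((l : ℝ) + 1 + 1) * c ^ (l + 1) * (c - a) := by ring
    linarith

/-- `v` is the dimension of the space of the forms of degree `d` at general points. -/
def IsValue (r : ℕ) {k : ℕ} (d : ℕ) (m : Fin k → ℕ) (v : ℕ) : Prop :=
  Generally (fun P : Fin k → ℙ ℂ (Fin (r + 1) → ℂ) => Module.finrank ℂ (forms d m P) = v)

/-- Let `w` be weights of `k` points in `ℙ^r`. Part (1): for arbitrary multiplicities and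
`e < ∑ (w i) ^ (r - 1) m i`, in every degree `d ≥ e` the dimension for general points is at most
the naive count plus `∑ binom (m i + r - 1) r - binom (e + r) r`. Part (2): for the
multiplicities `⌊N w i⌋` the dimension for general points is `max 0 naive` in every degree, up to an
error of at most `C N ^ (r - 1)`. -/
theorem result (r k : ℕ) (hr : 2 ≤ r) (w : Fin k → ℝ)
    (hw : Weights r ((Finset.univ : Finset (Fin k)).val.map w)) :
    (∀ (m : Fin k → ℕ) (d e : ℕ), e ≤ d → (e : ℝ) < ∑ i, w i ^ (r - 1) * m i →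
      ∃ v : ℕ, IsValue r d m v ∧ naive r d m ≤ v ∧
        (v : ℤ) ≤ naive r d m +
          (∑ i, ((m i + r - 1).choose r : ℤ) - ((e + r).choose r : ℤ))) ∧
    ∃ C : ℝ, ∀ N d : ℕ, ∃ v : ℕ, IsValue r d (fun i => ⌊(N : ℝ) * w i⌋₊) v ∧
      |(v : ℝ) - ((max 0 (naive r d (fun i => ⌊(N : ℝ) * w i⌋₊)) : ℤ) : ℝ)| ≤
        C * (N : ℝ) ^ (r - 1) := by
  have hW := hw.tw
  have hpos : ∀ i, 0 < w i ∧ w i ≤ 1 := fun i =>
    hW.pos (by omega) (w i) (Multiset.mem_map_of_mem w (Finset.mem_univ_val i))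
  have hsum : ∑ i, w i ^ r = 1 := by
    have h1 := hW.sum (by omega)
    rw [Multiset.map_map] at h1
    exact h1
  have hval : ∀ (m : Fin k → ℕ) (d : ℕ), ∃ v : ℕ, IsValue r d m v ∧ naive r d m ≤ v ∧
      v ≤ (d + r).choose r ∧
      ∀ e : ℕ, e ≤ d → (e : ℝ) < ∑ i, w i ^ (r - 1) * m i →
        (v : ℤ) + ((e + r).choose r : ℤ) ≤ ((d + r).choose r : ℤ) := by
    intro m d
    obtain ⟨v, hv1, hv2, hv3, hv4, hv5⟩ := R873.SB.value (by omega : 1 ≤ r) m d
    refine ⟨v, hv1, ?_, hv3, fun e he hes => ?_⟩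
    · unfold naive
      have h1 : ((d + r).choose r : ℤ) ≤ (v : ℤ) + ∑ i, ((m i + r - 1).choose r : ℤ) := by
        exact_mod_cast hv2
      linarith
    · exact_mod_cast hv4 e he (empty hr hw m e hes)
  refine ⟨fun m d e hed he => ?_, ?_⟩
  · obtain ⟨v, h1, h2, h3, h4⟩ := hval m d
    refine ⟨v, h1, h2, ?_⟩
    have h5 := h4 e hed he
    unfold naive
    linarith
  · refine ⟨k * r ^ 2 * ((r : ℝ) + 1) ^ (r - 1) + r * k, fun N d => ?_⟩
    obtain ⟨m, hm⟩ : ∃ m : Fin k → ℕ, m = fun i => ⌊(N : ℝ) * w i⌋₊ := ⟨_, rfl⟩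
    rw [← hm]
    obtain ⟨v, h1, h2, h3, h4⟩ := hval m d
    refine ⟨v, h1, ?_⟩
    have hr2 : (2 : ℝ) ≤ r := by exact_mod_cast hr
    have hN0 : (0 : ℝ) ≤ N := Nat.cast_nonneg N
    have hk0 : (0 : ℝ) ≤ k := Nat.cast_nonneg k
    have hC : (0 : ℝ) ≤ (k * r ^ 2 * ((r : ℝ) + 1) ^ (r - 1) + r * k) * (N : ℝ) ^ (r - 1) := by
      positivity
    have hge : (((max 0 (naive r d m) : ℤ)) : ℝ) ≤ v := by
      have : max 0 (naive r d m) ≤ (v : ℤ) := max_le (Int.natCast_nonneg v) h2
      exact_mod_cast this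
    rw [abs_of_nonneg (by linarith)]
    -- enough
    have hmax0 : (0 : ℝ) ≤ ((max 0 (naive r d m) : ℤ) : ℝ) := by
      exact_mod_cast le_max_left 0 (naive r d m)
    have hmaxn : ((naive r d m : ℤ) : ℝ) ≤ ((max 0 (naive r d m) : ℤ) : ℝ) := by
      exact_mod_cast le_max_right 0 (naive r d m)
    obtain ⟨T, hT⟩ : ∃ T : ℝ, T = ∑ i, w i ^ (r - 1) * m i := ⟨_, rfl⟩
    rcases lt_or_ge (d : ℝ) T with hd | hd
    · have h5 := h4 d le_rfl (by rw [← hT]; exact hd)
      have h6 : (v : ℤ) ≤ 0 := by linarith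
      have h7 : (v : ℝ) ≤ 0 := by exact_mod_cast h6
      linarith
    -- the numbers
    have hmle : ∀ i, (m i : ℝ) ≤ N * w i := by
      intro i
      rw [hm]
      exact Nat.floor_le (mul_nonneg hN0 (hpos i).1.le)
    have hmge : ∀ i, (N : ℝ) * w i - 1 ≤ m i := by
      intro i
      rw [hm]
      have := Nat.lt_floor_add_one ((N : ℝ) * w i)
      linarith
    have hT0 : 0 ≤ T := by
      rw [hT]
      exact Finset.sum_nonneg fun i _ => mul_nonneg (pow_nonneg (hpos i).1.le _)
        (Nat.cast_nonneg _)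
    have hw1 : ∀ i, w i ^ (r - 1) * w i = w i ^ r := by
      intro i
      rw [← pow_succ]
      congr 1
      omega
    have hTN : T ≤ N := by
      rw [hT]
      calc ∑ i, w i ^ (r - 1) * m i ≤ ∑ i, N * w i ^ r := by
            refine Finset.sum_le_sum fun i _ => ?_
            rw [← hw1 i]
            have := mul_le_mul_of_nonneg_left (hmle i) (pow_nonneg (hpos i).1.le (r - 1))
            linarith
        _ = N := by rw [← Finset.mul_sum, hsum, mul_one]
    have hTk : (N : ℝ) - k ≤ T := by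
      rw [hT]
      have h5 : ∑ i, (N * w i ^ r - 1) ≤ ∑ i, w i ^ (r - 1) * (m i : ℝ) := by
        refine Finset.sum_le_sum fun i _ => ?_
        have h6 := mul_le_mul_of_nonneg_left (hmge i) (pow_nonneg (hpos i).1.le (r - 1))
        have h7 : w i ^ (r - 1) ≤ 1 := pow_le_one₀ (hpos i).1.le (hpos i).2
        have h8 : w i ^ (r - 1) * (N * w i - 1) = N * w i ^ r - w i ^ (r - 1) := by
          rw [← hw1 i]
          ring
        rw [h8] at h6
        linarith
      rw [Finset.sum_sub_distrib, ← Finset.mul_sum, hsum] at h5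
      simp only [Finset.sum_const, Finset.card_univ, Fintype.card_fin, nsmul_eq_mul,
        mul_one] at h5
      exact h5
    have hfac : (1 : ℝ) ≤ (r.factorial : ℝ) := by exact_mod_cast Nat.factorial_pos r
    -- the number of the conditions
    have hA : (r.factorial : ℝ) * ∑ i, ((m i + r - 1).choose r : ℝ) ≤
        ∑ i, (N * w i + r) ^ r := by
      rw [Finset.mul_sum]
      refine Finset.sum_le_sum fun i _ => ?_
      rw [R873.SB.fact_choose' r (m i) (by omega)]
      calc ∏ j ∈ Finset.range r, ((m i : ℝ) + j) ≤ ∏ _j ∈ Finset.range r, (N * w i + r) := by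
            refine Finset.prod_le_prod (fun j _ => by positivity) fun j hj => ?_
            have h5 : (j : ℝ) ≤ r := by exact_mod_cast (Finset.mem_range.1 hj).le
            linarith [hmle i]
        _ = (N * w i + r) ^ r := by rw [Finset.prod_const, Finset.card_range]
    rcases Nat.eq_zero_or_pos N with hN | hN
    · -- no points
      have h5 : ∀ i, m i = 0 := by
        intro i
        rw [hm, hN]
        simp
      have h6 : naive r d m = ((d + r).choose r : ℤ) := by
        unfold naive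
        rw [Finset.sum_eq_zero, sub_zero]
        intro i _
        rw [h5 i, Nat.choose_eq_zero_of_lt (by omega)]
        rfl
      have h7 : (v : ℝ) ≤ ((naive r d m : ℤ) : ℝ) := by
        rw [h6]
        exact_mod_cast h3
      linarith
    have hNR : (1 : ℝ) ≤ N := by exact_mod_cast hN
    have hsumA : ∑ i, (N * w i + r) ^ r ≤
        (N : ℝ) ^ r + k * r ^ 2 * ((r : ℝ) + 1) ^ (r - 1) * (N : ℝ) ^ (r - 1) := by
      have h5 : ∀ i, (N * w i + r) ^ r ≤
          (N : ℝ) ^ r * w i ^ r + r ^ 2 * ((r : ℝ) + 1) ^ (r - 1) * (N : ℝ) ^ (r - 1) := by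
        intro i
        have h6 : 0 ≤ N * w i := mul_nonneg hN0 (hpos i).1.le
        have h7 := pow_sub_le (N * w i) (N * w i + r) h6 (by linarith) r
        have h8 : N * w i + r ≤ ((r : ℝ) + 1) * N := by nlinarith [(hpos i).2]
        have h9 : (N * w i + r) ^ (r - 1) ≤ (((r : ℝ) + 1) * N) ^ (r - 1) :=
          pow_le_pow_left₀ (by linarith) h8 _
        have h10 : (r : ℝ) * (N * w i + r) ^ (r - 1) * (N * w i + r - N * w i) ≤
            r ^ 2 * (((r : ℝ) + 1) * N) ^ (r - 1) := by
          have : (r : ℝ) * (N * w i + r) ^ (r - 1) * (N * w i + r - N * w i) =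
            r ^ 2 * (N * w i + r) ^ (r - 1) := by ring
          rw [this]
          exact mul_le_mul_of_nonneg_left h9 (by positivity)
        rw [mul_pow] at h10
        rw [mul_pow] at h7
        linarith
      calc ∑ i, (N * w i + r) ^ r ≤ ∑ i, ((N : ℝ) ^ r * w i ^ r +
            r ^ 2 * ((r : ℝ) + 1) ^ (r - 1) * (N : ℝ) ^ (r - 1)) :=
            Finset.sum_le_sum fun i _ => h5 i
        _ = (N : ℝ) ^ r + k * r ^ 2 * ((r : ℝ) + 1) ^ (r - 1) * (N : ℝ) ^ (r - 1) := by
            rw [Finset.sum_add_distrib, ← Finset.mul_sum, hsum]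
            simp only [Finset.sum_const, Finset.card_univ, Fintype.card_fin, nsmul_eq_mul]
            ring
    have hTr : (N : ℝ) ^ r - T ^ r ≤ r * k * (N : ℝ) ^ (r - 1) := by
      have h5 := pow_sub_le T N hT0 hTN r
      have h6 : (r : ℝ) * (N : ℝ) ^ (r - 1) * (N - T) ≤ r * (N : ℝ) ^ (r - 1) * k :=
        mul_le_mul_of_nonneg_left (by linarith) (by positivity)
      linarith
    -- the comparison
    have key : (v : ℝ) - ((naive r d m : ℤ) : ℝ) ≤
        ∑ i, ((m i + r - 1).choose r : ℝ) - T ^ r / r.factorial := by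
      have h5 : ((naive r d m : ℤ) : ℝ) = ((d + r).choose r : ℝ) -
          ∑ i, ((m i + r - 1).choose r : ℝ) := by
        unfold naive
        push_cast
        rfl
      rw [h5]
      rcases hT0.eq_or_lt with hT1 | hT1
      · rw [← hT1, zero_pow (by omega), zero_div]
        have h6 : (v : ℝ) ≤ ((d + r).choose r : ℝ) := by exact_mod_cast h3
        linarith
      · have hc : 0 < ⌈T⌉₊ := Nat.ceil_pos.2 hT1
        obtain ⟨e, he⟩ : ∃ e, ⌈T⌉₊ = e + 1 := ⟨⌈T⌉₊ - 1, by omega⟩
        have h6 : (e : ℝ) < T := Nat.lt_ceil.1 (by omega)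
        have h7 : T ≤ (e : ℝ) + 1 := by
          have := Nat.le_ceil T
          rw [he] at this
          push_cast at this
          exact this
        have h8 : e ≤ d := by
          have : (e : ℝ) ≤ d := by linarith
          exact_mod_cast this
        have h9 := h4 e h8 (by rw [← hT]; exact h6)
        have h10 : (v : ℝ) + ((e + r).choose r : ℝ) ≤ ((d + r).choose r : ℝ) := by
          exact_mod_cast h9
        have h11 := R873.SB.prod_lower r e T hT0 h7
        have h12 : T ^ r ≤ ∏ j ∈ Finset.range r, (T + j) := by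
          calc T ^ r = ∏ _j ∈ Finset.range r, T := by
                rw [Finset.prod_const, Finset.card_range]
            _ ≤ ∏ j ∈ Finset.range r, (T + j) :=
                Finset.prod_le_prod (fun j _ => hT0) fun j _ => by
                  linarith [(Nat.cast_nonneg j : (0 : ℝ) ≤ j)]
        have h13 : T ^ r / r.factorial ≤ ((e + r).choose r : ℝ) := by
          rw [div_le_iff₀ (by linarith)]
          linarith
        linarith
    have h5 : (r.factorial : ℝ) * ((v : ℝ) - ((naive r d m : ℤ) : ℝ)) ≤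
        (k * r ^ 2 * ((r : ℝ) + 1) ^ (r - 1) + r * k) * (N : ℝ) ^ (r - 1) := by
      have h6 := mul_le_mul_of_nonneg_left key (by linarith : (0 : ℝ) ≤ r.factorial)
      have h7 : (r.factorial : ℝ) * (∑ i, ((m i + r - 1).choose r : ℝ) - T ^ r / r.factorial) =
          (r.factorial : ℝ) * ∑ i, ((m i + r - 1).choose r : ℝ) - T ^ r := by
        field_simp
      rw [h7] at h6
      linarith
    rcases le_or_gt ((v : ℝ) - ((naive r d m : ℤ) : ℝ)) 0 with h6 | h6
    · linarith
    · have h7 : (v : ℝ) - ((naive r d m : ℤ) : ℝ) ≤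
          (r.factorial : ℝ) * ((v : ℝ) - ((naive r d m : ℤ) : ℝ)) := by nlinarith
      linarith

end Pool.Agent.Results.MP_1dafdd_ag.EveryDegreeSubdivision
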