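import Pool.Agent.R332.TW.Main
import Pool.Agent.H350R3.MG.PLem

/-!
# Sharp inequalities of Nagata type for non-uniform multiplicities in projective space

Let `r ≥ 2`. The weights `w i > 0` of `k` points of `ℙ^r` are obtained from one weight `1` by
replacing, several times, a weight `w` by `s` times the weight `w / s ^ (1 / r)`; here `s ≥ 3 ^ r` is
arbitrary, or `s = t ^ r`, `t ≥ 2`. Then `∑ (w i) ^ r = 1`, and for `k` general points of `ℙ^r` and
arbitrary multiplicities `m i`

* there is no form of degree `d < ∑ (w i) ^ (r - 1) * m i` with these multiplicities, so the fat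
  point scheme imposes maximal conditions in degree `d`. This is the best possible inequality of
  this kind: it is the tangent hyperplane to `∑ (m i) ^ r = d ^ r` in the direction `w`;
* the fat point scheme imposes independent (hence maximal) conditions in degree `d` if
  `m i + 2 r k ≤ w i * d` for all `i`.

For the multiplicities `m i = ⌊N w i⌋` only degrees in a window around `N` of bounded length remain.
-/

set_option autoImplicit false

namespace Pool.Agent.Results.MP_1dafdd_ag.SubdivisionWeights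

open MvPolynomial
open scoped LinearAlgebra.Projectivization
open Pool.Agent.H350R3.MG

/-- `V_d(Γ)`: the forms of degree `d` vanishing to order at least `m i` at the `i`-th point. -/
noncomputable def forms {r k : ℕ} (d : ℕ) (m : Fin k → ℕ) (P : Fin k → ℙ ℂ (Fin (r + 1) → ℂ)) :
    Submodule ℂ (MvPolynomial (Fin (r + 1)) ℂ) :=
  homogeneousSubmodule (Fin (r + 1)) ℂ d ⊓
    Submodule.restrictScalars ℂ (⨅ i, primeIdeal (P i) ^ m i : Ideal (MvPolynomial (Fin (r + 1)) ℂ))

/-- The naive count `binom (d + r) r - ∑ binom (m i + r - 1) r`. -/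
def naive (r d : ℕ) {k : ℕ} (m : Fin k → ℕ) : ℤ :=
  ((d + r).choose r : ℤ) - ∑ i, ((m i + r - 1).choose r : ℤ)

/-- `Γ` imposes maximal conditions in degree `d`. -/
def ImposesMaximalConditions {r k : ℕ} (d : ℕ) (m : Fin k → ℕ)
    (P : Fin k → ℙ ℂ (Fin (r + 1) → ℂ)) : Prop :=
  (Module.finrank ℂ (forms d m P) : ℤ) = max 0 (naive r d m)

/-- The weights: the smallest class of multisets of real numbers which contains `{1}` and which is
closed under the replacement of a weight `w` by `s` times the weight `w / s ^ (1 / r)`, where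
`s ≥ 3 ^ r`, or `s = t ^ r` with `t ≥ 2`. -/
inductive Weights (r : ℕ) : Multiset ℝ → Prop
  | one : Weights r {1}
  | split (w : ℝ) (M : Multiset ℝ) (s : ℕ) (hs : 3 ^ r ≤ s ∨ ∃ t, 2 ≤ t ∧ s = t ^ r)
      (h : Weights r (w ::ₘ M)) :
      Weights r (Multiset.replicate s (w / (s : ℝ) ^ ((1 : ℝ) / r)) + M)

lemma Weights.tw {r : ℕ} {W : Multiset ℝ} (h : Weights r W) : R332.TW.Weights r W := by
  induction h with
  | one => exact R332.TW.Weights.one
  | split w M s hs h ih => exact R332.TW.Weights.split w M s hs ih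

lemma forms_eq {r k d : ℕ} (m : Fin k → ℕ) (v : Fin k → Fin (r + 1) → ℂ) (hv : ∀ i, v i ≠ 0) :
    forms d m (fun i => Projectivization.mk ℂ (v i) (hv i)) =
      Pool.Agent.H938R2.forms (r + 1) d m v := by
  unfold forms
  ext F
  rw [Submodule.mem_inf, Submodule.restrictScalars_mem, Submodule.mem_iInf,
    Pool.Agent.H938R2.mem_forms, mem_homogeneousSubmodule]
  have key : F.IsHomogeneous d → ∀ i,
      (F ∈ primeIdeal (Projectivization.mk ℂ (v i) (hv i)) ^ m i ↔
        Pool.Agent.H938R2.VanishesToOrder (m i) (v i) F) := by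
    intro hF i
    rw [primeIdeal_mk]
    exact Pool.Agent.TH176.FB.mem_pow_iff_vanishes (hv i) ((mem_homogeneousSubmodule _ _).2 hF)
  constructor
  · rintro ⟨h1, h2⟩
    exact ⟨h1, fun i => (key h1 i).1 (h2 i)⟩
  · rintro ⟨h1, h2⟩
    exact ⟨h1, fun i => (key h1 i).2 (h2 i)⟩

/-- from the class `Emp` to general points -/
lemma of_emp {n k d : ℕ} {m : Fin k → ℕ}
    (h : Pool.Agent.Y55.Col.Emp (n + 1) (d + 1) ((Finset.univ : Finset (Fin k)).val.map m)) :
    Generally (fun P : Fin k → ℙ ℂ (Fin (n + 1 + 1) → ℂ) =>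
      forms d m P = ⊥ ∧ ImposesMaximalConditions d m P) := by
  obtain ⟨D, hD, h⟩ := (Pool.Agent.Y55.Col.general_of_emp h).and
    (Pool.Agent.H938R2.forGeneral_ne_zero (by omega))
  refine generally_of_poly D hD fun v hv hp => ?_
  obtain ⟨h1, h2⟩ := h v hp
  have h3 := Pool.Agent.H938R2.finrank_forms_ge (n + 1) d m v h2
  unfold ImposesMaximalConditions naive
  rw [forms_eq _ v hv, h1, finrank_bot]
  rw [h1, finrank_bot, zero_add] at h3
  refine ⟨rfl, ?_⟩
  rw [max_eq_left]
  · simp
  · rw [sub_nonpos]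
    exact_mod_cast h3

/-- from the class `Ind` to general points -/
lemma of_ind {n k d : ℕ} {m : Fin k → ℕ}
    (h : Pool.Agent.Y55.Col.Ind n (d + 1) ((Finset.univ : Finset (Fin k)).val.map m)) :
    Generally (fun P : Fin k → ℙ ℂ (Fin (n + 1 + 1) → ℂ) =>
      (Module.finrank ℂ (forms d m P) : ℤ) = naive (n + 1) d m ∧
        ImposesMaximalConditions d m P) := by
  obtain ⟨D, hD, h⟩ := Pool.Agent.Y55.Col.general_of_ind h
  refine generally_of_poly D hD fun v hv hp => ?_
  have h1 := h v hp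
  have e2 : ∀ i, m i + (n + 1) - 1 = m i + n := fun i => by omega
  have h2 : (Module.finrank ℂ (forms d m (fun i => Projectivization.mk ℂ (v i) (hv i))) : ℤ) =
      naive (n + 1) d m := by
    unfold naive
    rw [forms_eq _ v hv]
    simp only [e2]
    rw [eq_sub_iff_add_eq]
    exact_mod_cast h1
  refine ⟨h2, ?_⟩
  unfold ImposesMaximalConditions
  rw [← h2, max_eq_right]
  exact Int.natCast_nonneg _

lemma generally_mono {n k : ℕ} {Q Q' : (Fin k → ℙ ℂ (Fin (n + 1) → ℂ)) → Prop}
    (h : ∀ P, Q P → Q' P) (hQ : Generally Q) : Generally Q' := by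
  obtain ⟨U, h1, h2, h3⟩ := hQ
  exact ⟨U, h1, h2, fun P hP => h P (h3 P hP)⟩

/-- the multiset of the pairs of a weight and a multiplicity -/
lemma pairs {k : ℕ} (w : Fin k → ℝ) (m : Fin k → ℕ) :
    ((Finset.univ : Finset (Fin k)).val.map fun i => (w i, m i)).map Prod.fst =
      (Finset.univ : Finset (Fin k)).val.map w ∧
    ((Finset.univ : Finset (Fin k)).val.map fun i => (w i, m i)).map Prod.snd =
      (Finset.univ : Finset (Fin k)).val.map m := by
  constructor <;> rw [Multiset.map_map] <;> rfl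

/-- Let `w` be weights of `k` points in `ℙ^r`. Part (1): `∑ (w i) ^ r = 1`. Part (2): no forms of
degree less than `∑ (w i) ^ (r - 1) * m i`. Part (3): independent conditions in degree `d` if
`m i + 2 r k ≤ w i * d` for all `i`. Part (4): maximal conditions for the multiplicities
`⌊N w i⌋` in all degrees outside a window around `N` whose length does not depend on `N`. -/
theorem result (r k : ℕ) (hr : 2 ≤ r) (w : Fin k → ℝ)
    (hw : Weights r ((Finset.univ : Finset (Fin k)).val.map w)) :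
    ∑ i, w i ^ r = 1 ∧
    (∀ (m : Fin k → ℕ) (d : ℕ), (d : ℝ) < ∑ i, w i ^ (r - 1) * m i →
      Generally (fun P : Fin k → ℙ ℂ (Fin (r + 1) → ℂ) =>
        forms d m P = ⊥ ∧ ImposesMaximalConditions d m P)) ∧
    (∀ (m : Fin k → ℕ) (d : ℕ), (∀ i, (m i : ℝ) + 2 * r * k ≤ w i * d) →
      Generally (fun P : Fin k → ℙ ℂ (Fin (r + 1) → ℂ) =>
        (Module.finrank ℂ (forms d m P) : ℤ) = naive r d m ∧ ImposesMaximalConditions d m P)) ∧
    ∃ C : ℕ, ∀ N d : ℕ, d + C ≤ N ∨ N + C ≤ d →
      Generally (fun P : Fin k → ℙ ℂ (Fin (r + 1) → ℂ) =>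
        ImposesMaximalConditions d (fun i => ⌊(N : ℝ) * w i⌋₊) P) := by
  obtain ⟨E, rfl⟩ : ∃ E, r = E + 1 := ⟨r - 1, by omega⟩
  have hE : 1 ≤ E := by omega
  have hW := hw.tw
  have hpos : ∀ i, 0 < w i ∧ w i ≤ 1 := fun i =>
    hW.pos (by omega) (w i) (Multiset.mem_map_of_mem w (Finset.mem_univ_val i))
  have hsum : ∑ i, w i ^ (E + 1) = 1 := by
    have h1 := hW.sum (by omega)
    rw [Multiset.map_map] at h1
    exact h1
  have part2 : ∀ (m : Fin k → ℕ) (d : ℕ), (d : ℝ) < ∑ i, w i ^ (E + 1 - 1) * m i →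
      Generally (fun P : Fin k → ℙ ℂ (Fin (E + 1 + 1) → ℂ) =>
        forms d m P = ⊥ ∧ ImposesMaximalConditions d m P) := by
    intro m d hd
    obtain ⟨p1, p2⟩ := pairs w m
    have h1 := R332.TW.emp_weights hE hW _ p1 d (by
      rw [Multiset.map_map]
      exact hd)
    rw [p2] at h1
    exact of_emp h1
  have part3 : ∀ (m : Fin k → ℕ) (d : ℕ), (∀ i, (m i : ℝ) + 2 * (E + 1 : ℕ) * k ≤ w i * d) →
      Generally (fun P : Fin k → ℙ ℂ (Fin (E + 1 + 1) → ℂ) =>
        (Module.finrank ℂ (forms d m P) : ℤ) = naive (E + 1) d m ∧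
          ImposesMaximalConditions d m P) := by
    intro m d hd
    obtain ⟨p1, p2⟩ := pairs w m
    have h1 := R332.TW.ind_weights hE hW _ p1 d (by
      intro x hx
      obtain ⟨i, -, rfl⟩ := Multiset.mem_map.1 hx
      have hc : ((Finset.univ : Finset (Fin k)).val.map w).card = k := by simp
      rw [hc]
      exact hd i)
    rw [p2] at h1
    exact of_ind h1
  refine ⟨hsum, part2, part3, ?_⟩
  -- the window
  obtain ⟨C1, hC1⟩ : ∃ C1 : ℕ, ∀ i, 2 * ((E + 1 : ℕ) : ℝ) * k ≤ w i * C1 := by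
    have h1 : ∀ i, ∃ c : ℕ, 2 * ((E + 1 : ℕ) : ℝ) * k ≤ w i * c := by
      intro i
      obtain ⟨c, hc⟩ := exists_nat_ge (2 * ((E + 1 : ℕ) : ℝ) * k / w i)
      refine ⟨c, ?_⟩
      rw [div_le_iff₀ (hpos i).1] at hc
      linarith
    choose c hc using h1
    refine ⟨∑ i, c i, fun i => (hc i).trans ?_⟩
    apply mul_le_mul_of_nonneg_left _ (hpos i).1.le
    exact_mod_cast Finset.single_le_sum (fun j _ => Nat.zero_le (c j)) (Finset.mem_univ i)
  refine ⟨C1 + k + 1, fun N d hNd => ?_⟩
  rcases hNd with h | h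
  · have h2 := part2 (fun i => ⌊(N : ℝ) * w i⌋₊) d (by
      have h3 : ∑ i, w i ^ (E + 1 - 1) * ((N : ℝ) * w i - 1) ≤
          ∑ i, w i ^ (E + 1 - 1) * (⌊(N : ℝ) * w i⌋₊ : ℝ) := by
        apply Finset.sum_le_sum
        intro i _
        apply mul_le_mul_of_nonneg_left _ (pow_nonneg (hpos i).1.le _)
        have := Nat.lt_floor_add_one ((N : ℝ) * w i)
        linarith
      have h4 : ∑ i, w i ^ (E + 1 - 1) * ((N : ℝ) * w i - 1) =
          N * ∑ i, w i ^ (E + 1) - ∑ i, w i ^ E := by
        rw [Finset.mul_sum, ← Finset.sum_sub_distrib]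
        apply Finset.sum_congr rfl
        intro i _
        have e : E + 1 - 1 = E := by omega
        rw [e, pow_succ]
        ring
      have h5 : ∑ i, w i ^ E ≤ k := by
        calc ∑ i, w i ^ E ≤ ∑ _i : Fin k, (1 : ℝ) :=
              Finset.sum_le_sum fun i _ => pow_le_one₀ (hpos i).1.le (hpos i).2
          _ = k := by simp
      rw [h4, hsum, mul_one] at h3
      have h6 : (d : ℝ) + (C1 + k + 1) ≤ N := by exact_mod_cast h
      have h7 : (0 : ℝ) ≤ C1 := Nat.cast_nonneg _
      linarith)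
    exact generally_mono (fun P hP => hP.2) h2
  · have h2 := part3 (fun i => ⌊(N : ℝ) * w i⌋₊) d (by
      intro i
      have h3 : (⌊(N : ℝ) * w i⌋₊ : ℝ) ≤ N * w i :=
        Nat.floor_le (mul_nonneg (Nat.cast_nonneg _) (hpos i).1.le)
      have h4 := hC1 i
      have h5 : (N : ℝ) + (C1 + k + 1) ≤ d := by exact_mod_cast h
      have h6 : w i * ((N : ℝ) + (C1 + k + 1)) ≤ w i * d :=
        mul_le_mul_of_nonneg_left h5 (hpos i).1.le
      have h7 : (0 : ℝ) ≤ w i * (k + 1) := mul_nonneg (hpos i).1.le (by positivity)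
      linarith)
    exact generally_mono (fun P hP => hP.2) h2

end Pool.Agent.Results.MP_1dafdd_ag.SubdivisionWeights
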